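import Pool.Agent.Lib.MP_de6bc3_an.Main

set_option autoImplicit false

open scoped Quaternion ENNReal

namespace Pool.Agent.Results.MP_de6bc3_an.SpectralLpNorm

open Pool.Agent.Lib.MP_de6bc3_an
open Filter Topology MeasureTheory

/-! ### Definitions used in the statement

`Oct`, `Oct.mul`, `Oct.conj` are the octonions, and `Alb` is the type of Hermitian `3 × 3`
matrices over them. -/

/-- The `(i, j)` entry of a Hermitian matrix. -/
def entry (X : Alb) (i j : Fin 3) : Oct := X.1 i j

lemma entry_herm (X : Alb) (i j : Fin 3) : entry X j i = Oct.conj (entry X i j) := X.2 i j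

lemma lin_herm (r s : ℝ) (X Y : Alb) (i j : Fin 3) : r • entry X j i + s • entry Y j i
    = Oct.conj (r • entry X i j + s • entry Y i j) := by
  rw [Oct.conj_add, Oct.conj_smul, Oct.conj_smul, ← entry_herm, ← entry_herm]

/-- The real linear combination `r X + s Y` in `H₃(𝕆)`. -/
noncomputable def lin (r s : ℝ) (X Y : Alb) : Alb :=
  ⟨fun i j => r • entry X i j + s • entry Y i j, lin_herm r s X Y⟩

lemma jord_herm (X Y : Alb) (i j : Fin 3) :
    (1 / 2 : ℝ) • (∑ k, Oct.mul (entry X j k) (entry Y k i) +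
      ∑ k, Oct.mul (entry Y j k) (entry X k i)) =
    Oct.conj ((1 / 2 : ℝ) • (∑ k, Oct.mul (entry X i k) (entry Y k j) +
      ∑ k, Oct.mul (entry Y i k) (entry X k j))) := (jmul X Y).2 i j

/-- The Jordan product `X ∘ Y = (X Y + Y X) / 2` in `H₃(𝕆)`. -/
noncomputable def jord (X Y : Alb) : Alb :=
  ⟨fun i j => (1 / 2 : ℝ) • (∑ k, Oct.mul (entry X i k) (entry Y k j) +
    ∑ k, Oct.mul (entry Y i k) (entry X k j)), jord_herm X Y⟩

/-- The zero matrix. -/
noncomputable def zeroH : Alb := ⟨fun _ _ => 0, fun _ _ => Oct.conj_zero.symm⟩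

lemma one_herm (i j : Fin 3) : (if j = i then ((1, 0) : Oct) else 0)
    = Oct.conj (if i = j then ((1, 0) : Oct) else 0) := by
  by_cases h : i = j
  · subst h; simp [Oct.conj]
  · rw [if_neg h, if_neg (Ne.symm h), Oct.conj_zero]

/-- The identity matrix. -/
noncomputable def oneH : Alb := ⟨fun i j => if i = j then (1, 0) else 0, one_herm⟩

lemma comb_herm (l : Fin 3 → ℝ) (q : Fin 3 → Alb) (i j : Fin 3) :
    ∑ k, l k • entry (q k) j i = Oct.conj (∑ k, l k • entry (q k) i j) := by
  rw [Oct.conj_sum]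
  refine Finset.sum_congr rfl fun k _ => ?_
  rw [Oct.conj_smul, ← entry_herm]

/-- The real linear combination `∑ₖ lₖ qₖ` in `H₃(𝕆)`. -/
noncomputable def comb (l : Fin 3 → ℝ) (q : Fin 3 → Alb) : Alb :=
  ⟨fun i j => ∑ k, l k • entry (q k) i j, comb_herm l q⟩

/-- Addition in `H₃(𝕆_ℂ) = H₃(𝕆) + i H₃(𝕆)`, where the pair `(a, b)` stands for `a + i b`. -/
noncomputable def addC (x y : Alb × Alb) : Alb × Alb := (lin 1 1 x.1 y.1, lin 1 1 x.2 y.2)

/-- Multiplication by complex scalars in `H₃(𝕆_ℂ)`. -/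
noncomputable def smulC (c : ℂ) (x : Alb × Alb) : Alb × Alb :=
  (lin c.re (-c.im) x.1 x.2, lin c.re c.im x.2 x.1)

/-- The involution `(a + i b)* = a - i b`. -/
noncomputable def starC (x : Alb × Alb) : Alb × Alb := (x.1, lin (-1) 0 x.2 zeroH)

/-- The Jordan product of `H₃(𝕆_ℂ)`, the complex bilinear extension of `jord`. -/
noncomputable def jordC (x y : Alb × Alb) : Alb × Alb :=
  (lin 1 (-1) (jord x.1 y.1) (jord x.2 y.2), lin 1 1 (jord x.1 y.2) (jord x.2 y.1))

/-- `k = h ^ s` by functional calculus: `h = ∑ lᵢ qᵢ` and `k = ∑ lᵢ ^ s qᵢ` with `lᵢ ≥ 0` and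
orthogonal idempotents `qᵢ` of sum one. -/
def IsPower (s : ℝ) (h k : Alb × Alb) : Prop :=
  ∃ (q : Fin 3 → Alb) (l : Fin 3 → ℝ), (∀ i j, jord (q i) (q j) = if i = j then q i else zeroH) ∧
    comb (fun _ => 1) q = oneH ∧ (∀ i, 0 ≤ l i) ∧ h = (comb l q, zeroH) ∧
    k = (comb (fun i => l i ^ s) q, zeroH)

section defs

variable {Ω : Type*} [MeasurableSpace Ω]

/-- `x` is an essentially bounded measurable function with values in `H₃(𝕆_ℂ)`: all matrix
entries of its two components are. -/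
def IsLinf (μ : Measure Ω) (x : Ω → Alb × Alb) : Prop :=
  ∀ i j, MemLp (fun ω => entry (x ω).1 i j) ∞ μ ∧ MemLp (fun ω => entry (x ω).2 i j) ∞ μ

/-- `τ` is a positive complex-linear functional on `L^∞(Ω, H₃(𝕆_ℂ))` with the trace property. -/
structure IsTraceFunctional (μ : Measure Ω) (τ : (Ω → Alb × Alb) → ℂ) : Prop where
  congr : ∀ x y, IsLinf μ x → IsLinf μ y → (∀ᵐ ω ∂μ, x ω = y ω) → τ x = τ y
  add : ∀ x y, IsLinf μ x → IsLinf μ y → τ (fun ω => addC (x ω) (y ω)) = τ x + τ y
  smul : ∀ c x, IsLinf μ x → τ (fun ω => smulC c (x ω)) = c * τ x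
  pos : ∀ x, IsLinf μ x → 0 ≤ (τ fun ω => jordC (starC (x ω)) (x ω)).re ∧
    (τ fun ω => jordC (starC (x ω)) (x ω)).im = 0
  trace : ∀ x y z, IsLinf μ x → IsLinf μ y → IsLinf μ z →
    τ (fun ω => jordC (x ω) (jordC (y ω) (z ω))) = τ (fun ω => jordC (jordC (x ω) (y ω)) (z ω))

/-- `X = (x* ∘ x)^s` in `L^∞(Ω, H₃(𝕆_ℂ))`. -/
def IsModPower (μ : Measure Ω) (s : ℝ) (x X : Ω → Alb × Alb) : Prop :=
  ∀ᵐ ω ∂μ, IsPower s (jordC (starC (x ω)) (x ω)) (X ω)

end defs

/-! ### Translation -/

lemma lin_eq (r s : ℝ) (X Y : Alb) : lin r s X Y = r • X + s • Y := by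
  apply Subtype.ext
  ext1 i; ext1 j
  rfl

lemma jord_eq (X Y : Alb) : jord X Y = jmul X Y := by
  apply Subtype.ext
  ext1 i; ext1 j
  rw [jmul_apply]
  rfl

lemma zeroH_eq : zeroH = 0 := rfl

lemma oneH_eq : oneH = one := by
  apply Subtype.ext
  ext1 i; ext1 j
  change (if i = j then ((1, 0) : Oct) else 0) = if i = j then Oct.ofReal 1 else 0
  have h : Oct.ofReal 1 = (1, 0) := by simp [Oct.ofReal]
  rw [h]

lemma sum_apply' {ι : Type*} (s : Finset ι) (f : ι → Alb) (i j : Fin 3) :
    (∑ k ∈ s, f k).1 i j = ∑ k ∈ s, (f k).1 i j := by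
  classical
  induction s using Finset.induction_on with
  | empty => rfl
  | insert a s ha ih => rw [Finset.sum_insert ha, Finset.sum_insert ha, add_apply', ih]

lemma comb_eq (l : Fin 3 → ℝ) (q : Fin 3 → Alb) : comb l q = ∑ k, l k • q k := by
  apply Subtype.ext
  ext1 i; ext1 j
  rw [sum_apply']
  rfl

lemma addC_eq (x y : Alb × Alb) : addC x y = x + y := by
  unfold addC
  rw [lin_eq, lin_eq]
  simp only [one_smul]
  rfl

lemma smulC_eq (c : ℂ) (x : Alb × Alb) : smulC c x = csmul c x := by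
  unfold smulC csmul
  rw [lin_eq, lin_eq, neg_smul, sub_eq_add_neg]

lemma starC_eq (x : Alb × Alb) : starC x = cstar x := by
  unfold starC cstar
  rw [lin_eq, zero_smul, add_zero, neg_smul, one_smul]

lemma jordC_eq (x y : Alb × Alb) : jordC x y = cmul x y := by
  unfold jordC cmul
  simp only [lin_eq, jord_eq, one_smul, neg_smul, sub_eq_add_neg]

lemma isPower_iff (s : ℝ) (h k : Alb × Alb) : IsPower s h k ↔ IsPowC s h k := by
  unfold IsPower IsPowC
  simp only [comb_eq, jord_eq, zeroH_eq, oneH_eq, one_smul]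

/-- The Hermitian matrix with a single pair of entries. -/
noncomputable def G (i j : Fin 3) (y : Oct) : Alb :=
  ⟨fun k l => (1 / 2 : ℝ) • ((if k = i ∧ l = j then y else 0) +
    (if l = i ∧ k = j then Oct.conj y else 0)), by
    intro k l
    change (1 / 2 : ℝ) • ((if l = i ∧ k = j then y else 0) +
      (if k = i ∧ l = j then Oct.conj y else 0)) = Oct.conj ((1 / 2 : ℝ) •
      ((if k = i ∧ l = j then y else 0) + (if l = i ∧ k = j then Oct.conj y else 0)))
    rw [Oct.conj_smul, Oct.conj_add]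
    split_ifs <;> simp [Oct.conj_conj, Oct.conj_zero, add_comm]⟩

lemma continuous_conj : Continuous Oct.conj := by
  unfold Oct.conj
  fun_prop

lemma continuous_G (i j : Fin 3) : Continuous (G i j) := by
  apply Continuous.subtype_mk
  refine continuous_pi fun k => continuous_pi fun l => ?_
  have h1 : Continuous fun y : Oct => (if k = i ∧ l = j then y else 0) := by
    split_ifs
    · exact continuous_id
    · exact continuous_const
  have h2 : Continuous fun y : Oct => (if l = i ∧ k = j then Oct.conj y else 0) := by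
    split_ifs
    · exact continuous_conj
    · exact continuous_const
  exact (h1.add h2).const_smul (1 / 2 : ℝ)

lemma sum_G (X : Alb) : ∑ i, ∑ j, G i j (X.1 i j) = X := by
  apply Subtype.ext
  ext1 k; ext1 l
  rw [sum_apply']
  simp only [sum_apply']
  have h1 : ∀ i j, (G i j (X.1 i j)).1 k l = (1 / 2 : ℝ) • ((if k = i ∧ l = j then X.1 i j else 0) +
    (if l = i ∧ k = j then Oct.conj (X.1 i j) else 0)) := fun i j => rfl
  simp only [h1, ← Finset.smul_sum, Finset.sum_add_distrib]
  have h2 : ∑ i, ∑ j, (if k = i ∧ l = j then X.1 i j else 0) = X.1 k l := by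
    rw [Finset.sum_eq_single k, Finset.sum_eq_single l]
    · simp
    · intro j _ hj; rw [if_neg (by tauto)]
    · simp
    · intro i _ hi
      exact Finset.sum_eq_zero fun j _ => if_neg (by tauto)
    · simp
  have h3 : ∑ i, ∑ j, (if l = i ∧ k = j then Oct.conj (X.1 i j) else 0) = X.1 k l := by
    rw [Finset.sum_eq_single l, Finset.sum_eq_single k]
    · simp [← herm]
    · intro j _ hj; rw [if_neg (by tauto)]
    · simp
    · intro i _ hi
      exact Finset.sum_eq_zero fun j _ => if_neg (by tauto)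
    · simp
  rw [h2, h3, ← two_smul ℝ, smul_smul]
  norm_num

section measure

variable {Ω : Type*} [MeasurableSpace Ω] {μ : Measure Ω}

instance instProperSpaceOct : ProperSpace Oct := FiniteDimensional.proper ℝ Oct

lemma memLp_of_entries {f : Ω → Alb} (h : ∀ i j, MemLp (fun ω => (f ω).1 i j) ∞ μ) :
    MemLp f ∞ μ := by
  have h1 : MemLp (fun ω => ∑ i, ∑ j, G i j ((f ω).1 i j)) ∞ μ := by
    refine memLp_finset_sum _ fun i _ => memLp_finset_sum _ fun j _ => ?_
    exact memLp_comp (continuous_G i j) (h i j)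
  simpa only [sum_G] using h1

lemma memLp_entries {f : Ω → Alb} (h : MemLp f ∞ μ) (i j : Fin 3) :
    MemLp (fun ω => (f ω).1 i j) ∞ μ :=
  memLp_comp (g := fun X : Alb => X.1 i j) (continuous_apply2 i j) h

lemma memLp_pair {f g : Ω → Alb} (hf : MemLp f ∞ μ) (hg : MemLp g ∞ μ) :
    MemLp (fun ω => ((f ω, g ω) : Alb × Alb)) ∞ μ := by
  obtain ⟨C, _, hC⟩ := exists_bound hf
  obtain ⟨D, _, hD⟩ := exists_bound hg
  refine memLp_top_of_bound (hf.1.prodMk hg.1) (max C D) ?_
  filter_upwards [hC, hD] with ω h1 h2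
  exact max_le_max h1 h2

lemma isLinf_iff (x : Ω → Alb × Alb) : IsLinf μ x ↔ MemLp x ∞ μ := by
  constructor
  · intro h
    have h1 : MemLp (fun ω => (x ω).1) ∞ μ := memLp_of_entries fun i j => (h i j).1
    have h2 : MemLp (fun ω => (x ω).2) ∞ μ := memLp_of_entries fun i j => (h i j).2
    exact memLp_pair h1 h2
  · intro h i j
    have h1 : MemLp (fun ω => (x ω).1) ∞ μ :=
      memLp_comp (g := fun a : Alb × Alb => a.1) continuous_fst h
    have h2 : MemLp (fun ω => (x ω).2) ∞ μ :=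
      memLp_comp (g := fun a : Alb × Alb => a.2) continuous_snd h
    exact ⟨memLp_entries h1 i j, memLp_entries h2 i j⟩

lemma isModPower_iff (s : ℝ) (x X : Ω → Alb × Alb) : IsModPower μ s x X ↔ IsAbsPow μ s x X := by
  unfold IsModPower IsAbsPow
  simp only [isPower_iff, jordC_eq, starC_eq]

lemma isTrace_of {τ : (Ω → Alb × Alb) → ℂ} (h : IsTraceFunctional μ τ) : IsTrace μ τ where
  congr := fun x y hx hxy => h.congr x y ((isLinf_iff x).mpr hx)
    ((isLinf_iff y).mpr (hx.ae_eq hxy)) hxy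
  add := fun x y hx hy => by
    have := h.add x y ((isLinf_iff x).mpr hx) ((isLinf_iff y).mpr hy)
    simp only [addC_eq] at this
    exact this
  smul := fun c x hx => by
    have := h.smul c x ((isLinf_iff x).mpr hx)
    simp only [smulC_eq] at this
    exact this
  pos := fun x hx => by
    have := h.pos x ((isLinf_iff x).mpr hx)
    simp only [jordC_eq, starC_eq] at this
    exact this
  trace := fun x y z hx hy hz => by
    have := h.trace x y z ((isLinf_iff x).mpr hx) ((isLinf_iff y).mpr hy) ((isLinf_iff z).mpr hz)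
    simp only [jordC_eq] at this
    exact this

end measure

/-- The spectral `L^p`-formula defines a seminorm on `L^∞(Ω, H₃(𝕆_ℂ))`: for every measure space,
every positive linear functional `τ` with the trace property, and every real `p ≥ 1`. -/
theorem result {Ω : Type*} [MeasurableSpace Ω] (μ : Measure Ω) (τ : (Ω → Alb × Alb) → ℂ)
    (hτ : IsTraceFunctional μ τ) (p : ℝ) (hp : 1 ≤ p) :
    (∀ a : Alb × Alb, ∃! k : Alb × Alb, IsPower (p / 2) (jordC (starC a) a) k) ∧
    (∀ x X : Ω → Alb × Alb, IsLinf μ x → IsModPower μ (p / 2) x X →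
      IsLinf μ X ∧ 0 ≤ (τ X).re ∧ (τ X).im = 0) ∧
    ∀ x y X Y Z : Ω → Alb × Alb, IsLinf μ x → IsLinf μ y → IsModPower μ (p / 2) x X →
      IsModPower μ (p / 2) y Y → IsModPower μ (p / 2) (fun ω => addC (x ω) (y ω)) Z →
      (τ Z).re ^ (1 / p) ≤ (τ X).re ^ (1 / p) + (τ Y).re ^ (1 / p) := by
  have h := main_theorem μ τ (isTrace_of hτ) p hp
  simp only [isLinf_iff, isModPower_iff, isPower_iff, jordC_eq, starC_eq, addC_eq]
  exact h

end Pool.Agent.Results.MP_de6bc3_an.SpectralLpNorm
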